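import Mathlib

/-! One-space form of Lemma L2: polynomial damping `(1 - ε Y Y*)^k`. -/

open scoped InnerProductSpace

noncomputable section

namespace Pool.Agent.MP_ce43bb_an.H25

variable {K : Type} [NormedAddCommGroup K] [InnerProductSpace ℂ K] [CompleteSpace K]

/-- The damping factor `1 - ε Y* Y`. -/
def dmp (ε : ℝ) (Y : K →L[ℂ] K) : K →L[ℂ] K := 1 - (ε : ℂ) • (star Y * Y)

theorem dmp_sq_le {ε Lc : ℝ} (hε : 0 ≤ ε) (hL : ε * Lc ^ 2 ≤ 1) {Y : K →L[ℂ] K} (hY : ‖Y‖ ≤ Lc)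
    (x : K) : ‖dmp ε Y x‖ ^ 2 ≤ ‖x‖ ^ 2 - ε * ‖Y x‖ ^ 2 := by
  have h1 : dmp ε Y x = x - (ε : ℂ) • (star Y (Y x)) := by simp [dmp]
  have h2 : RCLike.re ⟪x, (ε : ℂ) • (star Y (Y x))⟫_ℂ = ε * ‖Y x‖ ^ 2 := by
    rw [inner_smul_right, ContinuousLinearMap.star_eq_adjoint,
      ContinuousLinearMap.adjoint_inner_right, inner_self_eq_norm_sq_to_K]
    simp [← Complex.ofReal_pow]
  have h3 : ‖star Y (Y x)‖ ≤ Lc * ‖Y x‖ := by
    refine ((star Y).le_opNorm _).trans ?_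
    rw [norm_star]
    exact mul_le_mul_of_nonneg_right hY (norm_nonneg _)
  have h4 : ‖(ε : ℂ) • (star Y (Y x))‖ ^ 2 ≤ ε * ‖Y x‖ ^ 2 := by
    rw [norm_smul, Complex.norm_real, Real.norm_of_nonneg hε, mul_pow]
    have h5 : ‖star Y (Y x)‖ ^ 2 ≤ (Lc * ‖Y x‖) ^ 2 :=
      pow_le_pow_left₀ (norm_nonneg _) h3 2
    calc ε ^ 2 * ‖star Y (Y x)‖ ^ 2 ≤ ε ^ 2 * (Lc * ‖Y x‖) ^ 2 := by gcongr
      _ = (ε * Lc ^ 2) * (ε * ‖Y x‖ ^ 2) := by ring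
      _ ≤ 1 * (ε * ‖Y x‖ ^ 2) := by gcongr
      _ = _ := one_mul _
  rw [h1, @norm_sub_sq ℂ, h2]
  linarith

theorem dmp_norm_le {ε Lc : ℝ} (hε : 0 ≤ ε) (hL : ε * Lc ^ 2 ≤ 1) {Y : K →L[ℂ] K}
    (hY : ‖Y‖ ≤ Lc) : ‖dmp ε Y‖ ≤ 1 := by
  refine ContinuousLinearMap.opNorm_le_bound _ zero_le_one fun x => ?_
  rw [one_mul]
  have h := dmp_sq_le hε hL hY x
  have : 0 ≤ ε * ‖Y x‖ ^ 2 := by positivity
  exact abs_le_of_sq_le_sq' (by linarith) (norm_nonneg _) |>.2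

theorem pow_norm_le_one {A : K →L[ℂ] K} (hA : ‖A‖ ≤ 1) (k : ℕ) : ‖A ^ k‖ ≤ 1 := by
  induction k with
  | zero => rw [pow_zero]; exact ContinuousLinearMap.norm_id_le
  | succ k ih =>
    rw [pow_succ]
    exact (norm_mul_le _ _).trans (mul_le_one₀ ih (norm_nonneg _) hA)

theorem dmp_mul (ε : ℝ) (Y : K →L[ℂ] K) : dmp ε (star Y) * Y = Y * dmp ε Y := by
  simp [dmp, sub_mul, mul_sub, mul_assoc]

theorem dmp_pow_mul (ε : ℝ) (Y : K →L[ℂ] K) (k : ℕ) :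
    dmp ε (star Y) ^ k * Y = Y * dmp ε Y ^ k := by
  induction k with
  | zero => simp
  | succ k ih => rw [pow_succ', mul_assoc, ih, ← mul_assoc, dmp_mul, mul_assoc, ← pow_succ']

theorem decay {ε Lc : ℝ} (hε : 0 ≤ ε) (hL : ε * Lc ^ 2 ≤ 1) {Y : K →L[ℂ] K} (hY : ‖Y‖ ≤ Lc)
    (e : K) (k : ℕ) :
    k * (ε * ‖Y ((dmp ε Y ^ k) e)‖ ^ 2) + ‖(dmp ε Y ^ k) e‖ ^ 2 ≤ ‖e‖ ^ 2 := by
  induction k with
  | zero => simp
  | succ k ih =>
    have h1 := dmp_sq_le hε hL hY ((dmp ε Y ^ k) e)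
    have h2 : (dmp ε Y ^ (k + 1)) e = dmp ε Y ((dmp ε Y ^ k) e) := by rw [pow_succ']; rfl
    have h3 : ‖Y (dmp ε Y ((dmp ε Y ^ k) e))‖ ≤ ‖Y ((dmp ε Y ^ k) e)‖ := by
      have : Y (dmp ε Y ((dmp ε Y ^ k) e)) = dmp ε (star Y) (Y ((dmp ε Y ^ k) e)) := by
        change (Y * dmp ε Y) _ = (dmp ε (star Y) * Y) _
        rw [dmp_mul]
      rw [this]
      refine ((dmp ε (star Y)).le_opNorm _).trans ?_
      have := dmp_norm_le hε hL (Y := star Y) (by rwa [norm_star])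
      nlinarith [norm_nonneg (Y ((dmp ε Y ^ k) e))]
    have h4 : ε * ‖Y (dmp ε Y ((dmp ε Y ^ k) e))‖ ^ 2 ≤ ε * ‖Y ((dmp ε Y ^ k) e)‖ ^ 2 := by
      gcongr
    rw [h2, Nat.cast_succ]
    have hk : (0 : ℝ) ≤ k := Nat.cast_nonneg k
    nlinarith

theorem one_sub_pow_mul {ε : ℝ} {Y E : K →L[ℂ] K} (hYE : Y * E = Y) (k : ℕ) :
    (1 - dmp ε Y ^ k) * E = 1 - dmp ε Y ^ k := by
  induction k with
  | zero => simp
  | succ k ih =>
    have h : 1 - dmp ε Y ^ (k + 1) =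
        (1 - dmp ε Y ^ k) + (ε : ℂ) • (dmp ε Y ^ k * (star Y * Y)) := by
      rw [pow_succ]
      nth_rewrite 2 [dmp]
      simp only [mul_sub, mul_one, mul_smul_comm]
      abel
    rw [h, add_mul, ih, smul_mul_assoc, mul_assoc, mul_assoc, hYE]

theorem mul_one_sub_pow {ε : ℝ} {Y E : K →L[ℂ] K} (hYE : E * star Y = star Y) (k : ℕ) :
    E * (1 - dmp ε Y ^ k) = 1 - dmp ε Y ^ k := by
  induction k with
  | zero => simp
  | succ k ih =>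
    have h : 1 - dmp ε Y ^ (k + 1) =
        (1 - dmp ε Y ^ k) + (ε : ℂ) • (star Y * (Y * dmp ε Y ^ k)) := by
      rw [pow_succ']
      nth_rewrite 1 [dmp]
      simp only [sub_mul, one_mul, smul_mul_assoc, mul_assoc]
      abel
    rw [h, mul_add, ih, mul_smul_comm, ← mul_assoc, hYE]

theorem trace_pow {ε : ℝ} {Y : K →L[ℂ] K} (vv : K) (B : Subalgebra ℂ (K →L[ℂ] K))
    (hB : Y ∈ B) (hB' : star Y ∈ B)
    (htr : ∀ T ∈ B, ∀ T' ∈ B, ⟪vv, (T * T') vv⟫_ℂ = ⟪vv, (T' * T) vv⟫_ℂ) (k : ℕ) :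
    ⟪vv, (dmp ε (star Y) ^ k) vv⟫_ℂ = ⟪vv, (dmp ε Y ^ k) vv⟫_ℂ := by
  have hA : dmp ε Y ∈ B := B.sub_mem B.one_mem (B.smul_mem (B.mul_mem hB' hB) _)
  induction k with
  | zero => simp
  | succ k ih =>
    have h1 : dmp ε (star Y) ^ (k + 1) =
        dmp ε (star Y) ^ k - (ε : ℂ) • (Y * (dmp ε Y ^ k * star Y)) := by
      rw [← mul_assoc, ← dmp_pow_mul, pow_succ]
      nth_rewrite 2 [dmp]
      simp only [mul_sub, mul_one, mul_smul_comm, star_star, mul_assoc]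
    have h2 : dmp ε Y ^ (k + 1) =
        dmp ε Y ^ k - (ε : ℂ) • ((dmp ε Y ^ k * star Y) * Y) := by
      rw [pow_succ]
      nth_rewrite 2 [dmp]
      simp only [mul_sub, mul_one, mul_smul_comm, mul_assoc]
    rw [h1, h2, sub_apply, sub_apply,
      smul_apply, smul_apply, inner_sub_right,
      inner_sub_right, inner_smul_right, inner_smul_right, ih,
      htr _ hB _ (B.mul_mem (B.pow_mem hA k) hB')]

theorem cm_mul (P A B : K →L[ℂ] K) :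
    ‖P * (A * B) - A * B * P‖ ≤ ‖P * A - A * P‖ * ‖B‖ + ‖A‖ * ‖P * B - B * P‖ := by
  have : P * (A * B) - A * B * P = (P * A - A * P) * B + A * (P * B - B * P) := by noncomm_ring
  rw [this]
  exact (norm_add_le _ _).trans (add_le_add (norm_mul_le _ _) (norm_mul_le _ _))

theorem cm_pow (P : K →L[ℂ] K) {A : K →L[ℂ] K} (hA : ‖A‖ ≤ 1) (k : ℕ) :
    ‖P * A ^ k - A ^ k * P‖ ≤ k * ‖P * A - A * P‖ := by
  induction k with
  | zero => simp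
  | succ k ih =>
    rw [pow_succ]
    refine (cm_mul P _ _).trans ?_
    have h1 := pow_norm_le_one hA k
    have h2 := norm_nonneg (P * A ^ k - A ^ k * P)
    have h3 := norm_nonneg (P * A - A * P)
    push_cast
    nlinarith

theorem cm_star {P : K →L[ℂ] K} (hP : IsSelfAdjoint P) (A : K →L[ℂ] K) :
    ‖P * star A - star A * P‖ = ‖P * A - A * P‖ := by
  rw [← norm_star (P * A - A * P), star_sub, star_mul, star_mul, hP.star_eq, norm_sub_rev]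

theorem cm_dmp {P : K →L[ℂ] K} (hP : IsSelfAdjoint P) {ε : ℝ} (hε : 0 ≤ ε) (Y : K →L[ℂ] K) :
    ‖P * dmp ε Y - dmp ε Y * P‖ ≤ ε * (2 * ‖Y‖ * ‖P * Y - Y * P‖) := by
  have h : P * dmp ε Y - dmp ε Y * P = -((ε : ℂ) • (P * (star Y * Y) - star Y * Y * P)) := by
    simp only [dmp, mul_sub, sub_mul, mul_one, one_mul, mul_smul_comm, smul_mul_assoc, smul_sub]
    abel
  rw [h, norm_neg, norm_smul, Complex.norm_real, Real.norm_of_nonneg hε]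
  refine mul_le_mul_of_nonneg_left ((cm_mul P _ _).trans ?_) hε
  rw [cm_star hP, norm_star]
  linarith

theorem proj_inner {P : K →L[ℂ] K} (hP : IsStarProjection P) (x y : K) :
    ⟪P x, P y⟫_ℂ = ⟪x, P y⟫_ℂ := by
  have h1 : P (P y) = P y := by
    change (P * P) y = P y
    rw [hP.isIdempotentElem.eq]
  rw [← ContinuousLinearMap.adjoint_inner_right, ← ContinuousLinearMap.star_eq_adjoint,
    hP.isSelfAdjoint.star_eq, h1]

theorem abstract (Q δ a : ℝ) (hQ : 100 ≤ Q) (hδ0 : 0 ≤ δ) (hδ : Q ^ 40 * δ ≤ 1)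
    (PP PI E Y : K →L[ℂ] K) (hPP : IsStarProjection PP) (hPI : IsStarProjection PI)
    (hE : IsStarProjection E) (hPIY : PI * Y = Y) (hYE : Y * E = Y)
    (hY : ‖Y‖ ≤ 2 * Q ^ 2) (hcm : ‖PP * Y - Y * PP‖ ≤ 2 * Q * δ) (vv ee : K)
    (hv : ‖vv‖ ≤ Q) (hee : ‖ee‖ ≤ 2 * Q ^ 4) (hd : ‖(1 - PP) (PI vv + Y ee)‖ ≤ Q * δ)
    (hE2 : ‖E vv‖ ^ 2 ≤ 2) (ha : ‖PI vv‖ ^ 2 = a)
    (B : Subalgebra ℂ (K →L[ℂ] K)) (hB : Y ∈ B) (hB' : star Y ∈ B)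
    (htr : ∀ T ∈ B, ∀ T' ∈ B, ⟪vv, (T * T') vv⟫_ℂ = ⟪vv, (T' * T) vv⟫_ℂ) :
    a - 9 ≤ ‖PP vv‖ ^ 2 := by
  have hQ0 : 0 < Q := by linarith
  have hQ1 : 1 ≤ Q := by linarith
  set ε : ℝ := 1 / (4 * Q ^ 4) with hεdef
  have hε : 0 ≤ ε := by positivity
  have hL : ε * (2 * Q ^ 2) ^ 2 ≤ 1 := by
    rw [hεdef]; field_simp; norm_num
  set k : ℕ := ⌈Q ^ 17⌉₊ with hk
  have hk1 : Q ^ 17 ≤ k := Nat.le_ceil _
  have hk2 : (k : ℝ) ≤ 2 * Q ^ 17 := by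
    have h1 := Nat.ceil_lt_add_one (a := Q ^ 17) (by positivity)
    have h2 : 1 ≤ Q ^ 17 := one_le_pow₀ hQ1
    linarith
  have hYs : ‖star Y‖ ≤ 2 * Q ^ 2 := by rwa [norm_star]
  have hA1 : ‖dmp ε Y‖ ≤ 1 := dmp_norm_le hε hL hY
  have hA2 : ‖dmp ε (star Y)‖ ≤ 1 := dmp_norm_le hε hL hYs
  set C := dmp ε (star Y) ^ k with hC
  have hC1 : ‖C‖ ≤ 1 := pow_norm_le_one hA2 k
  have hCx : ∀ x, ‖C x‖ ≤ ‖x‖ := fun x =>
    (C.le_opNorm x).trans (mul_le_of_le_one_left (norm_nonneg _) hC1)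
  -- decay
  have hdec : ‖C (Y ee)‖ ≤ 1 / Q ^ 2 := by
    have h1 : C (Y ee) = Y ((dmp ε Y ^ k) ee) := by
      change (C * Y) ee = (Y * dmp ε Y ^ k) ee
      rw [hC, dmp_pow_mul]
    have h2 := decay hε hL hY ee k
    rw [← h1] at h2
    have h3 : ‖ee‖ ^ 2 ≤ (2 * Q ^ 4) ^ 2 := pow_le_pow_left₀ (norm_nonneg _) hee 2
    have h4 : Q ^ 17 * (ε * ‖C (Y ee)‖ ^ 2) ≤ (2 * Q ^ 4) ^ 2 := by
      have : Q ^ 17 * (ε * ‖C (Y ee)‖ ^ 2) ≤ k * (ε * ‖C (Y ee)‖ ^ 2) := by gcongr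
      nlinarith [sq_nonneg ‖(dmp ε Y ^ k) ee‖]
    have h5 : ‖C (Y ee)‖ ^ 2 ≤ (1 / Q ^ 2) ^ 2 := by
      have h6 : Q ^ 17 * (ε * ‖C (Y ee)‖ ^ 2) = Q ^ 13 / 4 * ‖C (Y ee)‖ ^ 2 := by
        rw [hεdef]; field_simp
      rw [h6] at h4
      have h7 : ‖C (Y ee)‖ ^ 2 ≤ (2 * Q ^ 4) ^ 2 / (Q ^ 13 / 4) := by
        rw [le_div_iff₀ (by positivity)]; linarith
      refine h7.trans ?_
      have h8 : (2 * Q ^ 4) ^ 2 / (Q ^ 13 / 4) = 16 / Q * (1 / Q ^ 2) ^ 2 := by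
        field_simp; norm_num
      rw [h8]
      refine mul_le_of_le_one_left (by positivity) ?_
      rw [div_le_one hQ0]; linarith
    exact (abs_le_of_sq_le_sq' h5 (by positivity)).2
  -- commutator
  have hPI1 : ∀ x, ‖PI x‖ ≤ ‖x‖ := fun x =>
    (PI.le_opNorm x).trans (mul_le_of_le_one_left (norm_nonneg _) (hPI.norm_le PI))
  have hcmC : ‖PP * C - C * PP‖ ≤ 4 * Q ^ 16 * δ := by
    refine (cm_pow PP hA2 k).trans ?_
    have h1 := cm_dmp hPP.isSelfAdjoint hε (star Y)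
    rw [cm_star hPP.isSelfAdjoint] at h1
    have h2 : ε * (2 * ‖star Y‖ * ‖PP * Y - Y * PP‖) ≤ ε * (2 * (2 * Q ^ 2) * (2 * Q * δ)) := by
      gcongr
    calc (k : ℝ) * ‖PP * dmp ε (star Y) - dmp ε (star Y) * PP‖
        ≤ (2 * Q ^ 17) * (ε * (2 * (2 * Q ^ 2) * (2 * Q * δ))) := by
          gcongr; exact h1.trans h2
      _ = 4 * Q ^ 16 * δ := by rw [hεdef]; field_simp; norm_num
  set x := PI vv + Y ee with hx
  have hxn : ‖x‖ ≤ 5 * Q ^ 6 := by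
    have h1 : ‖Y ee‖ ≤ 2 * Q ^ 2 * (2 * Q ^ 4) :=
      (Y.le_opNorm ee).trans (by gcongr)
    have h2 : Q ≤ Q ^ 6 := le_self_pow₀ hQ1 (by norm_num)
    have h3 := norm_add_le (PI vv) (Y ee)
    have h4 := hPI1 vv
    nlinarith
  have hδ1 : ∀ m : ℕ, m ≤ 38 → Q ^ m * δ ≤ 1 / Q ^ 2 := by
    intro m hm
    rw [le_div_iff₀ (by positivity)]
    calc Q ^ m * δ * Q ^ 2 = Q ^ (m + 2) * δ := by ring
      _ ≤ Q ^ 40 * δ := by gcongr; omega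
      _ ≤ 1 := hδ
  set u := PP (C x) - C (PI vv) with hu
  have hun : ‖u‖ ≤ 3 / Q ^ 2 := by
    have h1 : u = C (Y ee) - C ((1 - PP) x) + (PP * C - C * PP) x := by
      simp only [hu, hx, map_add, map_sub, sub_apply,
        mul_apply_eq_comp, one_apply_eq_self]
      abel
    have h2 : ‖(PP * C - C * PP) x‖ ≤ 4 * Q ^ 16 * δ * (5 * Q ^ 6) :=
      ((PP * C - C * PP).le_opNorm x).trans (by gcongr)
    have h3 := hδ1 1 (by norm_num)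
    have h4 := hδ1 23 (by norm_num)
    have h5 : 4 * Q ^ 16 * δ * (5 * Q ^ 6) ≤ Q ^ 23 * δ := by
      have : 0 ≤ Q ^ 22 * δ := by positivity
      nlinarith
    have h6 := hCx ((1 - PP) x)
    have h7 := norm_add_le (C (Y ee) - C ((1 - PP) x)) ((PP * C - C * PP) x)
    have h8 := norm_sub_le (C (Y ee)) (C ((1 - PP) x))
    rw [h1]
    have : 3 / Q ^ 2 = 1 / Q ^ 2 + 1 / Q ^ 2 + 1 / Q ^ 2 := by ring
    rw [pow_one] at h3
    linarith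
  -- trace
  have htrace : a - 4 ≤ RCLike.re ⟪vv, C (PI vv)⟫_ℂ := by
    have h1 : (1 - C) * PI = 1 - C := by
      refine one_sub_pow_mul ?_ k
      have := congrArg star hPIY
      rwa [star_mul, hPI.isSelfAdjoint.star_eq] at this
    have h2 : C (PI vv) = PI vv - (vv - C vv) := by
      have := congrArg (fun T : K →L[ℂ] K => T vv) h1
      simp only [mul_apply_eq_comp, sub_apply,
        one_apply_eq_self] at this
      rw [← this]; abel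
    have h3 : ⟪vv, vv - C vv⟫_ℂ = ⟪vv, (1 - dmp ε Y ^ k) vv⟫_ℂ := by
      rw [sub_apply, inner_sub_right, inner_sub_right, hC,
        trace_pow vv B hB hB' htr k, one_apply_eq_self]
    have h4 : E * star Y = star Y := by
      have := congrArg star hYE
      rwa [star_mul, hE.isSelfAdjoint.star_eq] at this
    have h5 : (1 - dmp ε Y ^ k) vv = E ((1 - dmp ε Y ^ k) (E vv)) := by
      change _ = (E * ((1 - dmp ε Y ^ k) * E)) vv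
      rw [one_sub_pow_mul hYE, mul_one_sub_pow h4]
    have h6 : ‖1 - dmp ε Y ^ k‖ ≤ 2 := by
      have := norm_sub_le (1 : K →L[ℂ] K) (dmp ε Y ^ k)
      have h7 := pow_norm_le_one hA1 k
      have h8 : ‖(1 : K →L[ℂ] K)‖ ≤ 1 := ContinuousLinearMap.norm_id_le
      linarith
    have h7 : ‖⟪vv, vv - C vv⟫_ℂ‖ ≤ 4 := by
      rw [h3, h5, ← proj_inner hE]
      refine (norm_inner_le_norm _ _).trans ?_
      have h8 : ‖E ((1 - dmp ε Y ^ k) (E vv))‖ ≤ 2 * ‖E vv‖ := by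
        refine (E.le_opNorm _).trans ((mul_le_of_le_one_left (norm_nonneg _)
          (hE.norm_le E)).trans (((1 - dmp ε Y ^ k).le_opNorm _).trans (by gcongr)))
      nlinarith [norm_nonneg (E vv)]
    have h8 : RCLike.re ⟪vv, PI vv⟫_ℂ = a := by
      rw [← proj_inner hPI, inner_self_eq_norm_sq, ha]
    rw [h2, inner_sub_right, map_sub, h8]
    have h9 := RCLike.re_le_norm ⟪vv, vv - C vv⟫_ℂ
    linarith
  -- conclusion
  have hw : PP (C x) = C (PI vv) + u := by rw [hu]; abel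
  have h1 : 0 ≤ ‖PP vv - PP (C x)‖ ^ 2 := sq_nonneg _
  rw [@norm_sub_sq ℂ, proj_inner hPP] at h1
  have h2 : RCLike.re ⟪vv, PP (C x)⟫_ℂ ≥ a - 4 - 3 / Q := by
    rw [hw, inner_add_right, map_add]
    have h3 : ‖⟪vv, u⟫_ℂ‖ ≤ Q * (3 / Q ^ 2) := (norm_inner_le_norm _ _).trans (by gcongr)
    have h4 : Q * (3 / Q ^ 2) = 3 / Q := by field_simp
    have h5 := RCLike.abs_re_le_norm ⟪vv, u⟫_ℂ
    have h6 := neg_abs_le (RCLike.re ⟪vv, u⟫_ℂ)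
    linarith
  have h3 : ‖PP (C x)‖ ≤ ‖PI vv‖ + 3 / Q ^ 2 := by
    rw [hw]
    exact (norm_add_le _ _).trans (add_le_add (hCx _) hun)
  have h4 : ‖PP (C x)‖ ^ 2 ≤ (‖PI vv‖ + 3 / Q ^ 2) ^ 2 := pow_le_pow_left₀ (norm_nonneg _) h3 2
  have h5 : ‖PI vv‖ * (3 / Q ^ 2) ≤ 3 / Q := by
    calc ‖PI vv‖ * (3 / Q ^ 2) ≤ Q * (3 / Q ^ 2) := by gcongr; exact (hPI1 vv).trans hv
      _ = 3 / Q := by field_simp
  have h6 : 3 / Q ≤ 3 / 100 := by gcongr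
  have h7 : 3 / Q ^ 2 ≤ 3 / 100 := by
    gcongr; nlinarith
  have h8 : (3 / Q ^ 2) ^ 2 ≤ (3 / 100) ^ 2 := pow_le_pow_left₀ (by positivity) h7 2
  nlinarith

end Pool.Agent.MP_ce43bb_an.H25
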