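import Pool.Agent.MP_ce43bb_an.H78.Base
import Pool.Agent.MP_ce43bb_an.H25.Abs

/-! Lemma L2: removing two directions costs at most 8. -/

open scoped InnerProductSpace

noncomputable section

namespace Pool.Agent.MP_ce43bb_an.H25

variable {H : Type} [NormedAddCommGroup H] [InnerProductSpace ℂ H] [CompleteSpace H] {n : ℕ}

/-- The Hilbert sum of `n` copies of `H`. -/
abbrev HH (n : ℕ) (H : Type) : Type := PiLp 2 (fun _ : Fin n => H)

/-- A matrix of operators acting on the Hilbert sum. -/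
def opf (M : Matrix (Fin n) (Fin n) (H →L[ℂ] H)) : HH n H →L[ℂ] HH n H :=
  ((PiLp.continuousLinearEquiv 2 ℂ (fun _ : Fin n => H)).symm : (Fin n → H) →L[ℂ] HH n H) ∘L
    ContinuousLinearMap.pi fun i => ∑ j, M i j ∘L PiLp.proj 2 (fun _ : Fin n => H) j

omit [CompleteSpace H] in
theorem opf_apply (M : Matrix (Fin n) (Fin n) (H →L[ℂ] H)) (x : HH n H) (i : Fin n) :
    opf M x i = ∑ j, M i j (x j) := by
  simp [opf]

/-- `opf` as an algebra map. -/
def op : Matrix (Fin n) (Fin n) (H →L[ℂ] H) →ₐ[ℂ] (HH n H →L[ℂ] HH n H) where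
  toFun := opf
  map_one' := by
    ext x i
    simp [opf_apply, Matrix.one_apply, DFunLike.ite_apply]
  map_mul' M N := by
    ext x i
    simp only [opf_apply, Matrix.mul_apply, mul_apply_eq_comp, map_sum, sum_apply]
    exact Finset.sum_comm
  map_zero' := by
    ext x i
    simp [opf_apply]
  map_add' M N := by
    ext x i
    simp [opf_apply, Finset.sum_add_distrib]
  commutes' c := by
    ext x i
    simp [opf_apply, Matrix.one_apply, DFunLike.ite_apply, Algebra.algebraMap_eq_smul_one]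

omit [CompleteSpace H] in
theorem op_apply (M : Matrix (Fin n) (Fin n) (H →L[ℂ] H)) (x : HH n H) (i : Fin n) :
    op M x i = ∑ j, M i j (x j) := opf_apply M x i

theorem op_star (M : Matrix (Fin n) (Fin n) (H →L[ℂ] H)) : star (op M) = op (star M) := by
  rw [ContinuousLinearMap.star_eq_adjoint, eq_comm, ContinuousLinearMap.eq_adjoint_iff]
  intro x y
  simp only [PiLp.inner_apply, op_apply, Matrix.star_apply, sum_inner, inner_sum,
    ContinuousLinearMap.star_eq_adjoint, ContinuousLinearMap.adjoint_inner_left]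
  exact Finset.sum_comm

omit [InnerProductSpace ℂ H] [CompleteSpace H] in
theorem norm_le_sum (x : HH n H) : ‖x‖ ≤ ∑ i, ‖x i‖ := by
  refine (abs_le_of_sq_le_sq' ?_ (Finset.sum_nonneg fun _ _ => norm_nonneg _)).2
  rw [PiLp.norm_sq_eq_of_L2]
  exact Finset.sum_sq_le_sq_sum_of_nonneg fun _ _ => norm_nonneg _

omit [CompleteSpace H] in
theorem norm_op_le (M : Matrix (Fin n) (Fin n) (H →L[ℂ] H)) : ‖op M‖ ≤ ∑ i, ∑ j, ‖M i j‖ := by
  refine ContinuousLinearMap.opNorm_le_bound _ (by positivity) fun x => ?_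
  refine (norm_le_sum _).trans ?_
  rw [Finset.sum_mul]
  refine Finset.sum_le_sum fun i _ => ?_
  rw [op_apply, Finset.sum_mul]
  refine (norm_sum_le _ _).trans (Finset.sum_le_sum fun j _ => ((M i j).le_opNorm _).trans ?_)
  exact mul_le_mul_of_nonneg_left (PiLp.norm_apply_le x j) (norm_nonneg _)

omit [CompleteSpace H] in
theorem op_diag (d : Fin n → H →L[ℂ] H) (x : HH n H) (i : Fin n) :
    op (Matrix.diagonal d) x i = d i (x i) := by
  simp [op_apply, Matrix.diagonal_apply, DFunLike.ite_apply]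

theorem op_diag_proj {d : Fin n → H →L[ℂ] H} (hd : ∀ i, IsStarProjection (d i)) :
    IsStarProjection (op (Matrix.diagonal d)) := by
  constructor
  · rw [IsIdempotentElem, ← map_mul, Matrix.diagonal_mul_diagonal]
    congr 2
    funext i
    exact (hd i).isIdempotentElem.eq
  · rw [IsSelfAdjoint, op_star, Matrix.star_eq_conjTranspose, Matrix.diagonal_conjTranspose]
    congr 2
    funext i
    exact (hd i).isSelfAdjoint.star_eq

/-- The vector `(a, b, 0, …, 0)`. -/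
def col {X : Type} [Zero X] {m : ℕ} (a b : X) : Fin (m + 2) → X := Fin.cons a (Fin.cons b 0)

theorem lemmaL2 {H : Type} [NormedAddCommGroup H] [InnerProductSpace ℂ H] [CompleteSpace H]
    {n : ℕ} (hn : 2 ≤ n) (Q δ α : ℝ) (hQ : 100 ≤ Q) (hnQ : (n : ℝ) ≤ Q) (hδ : Q ^ 40 * δ ≤ 1)
    (P Pi : H →L[ℂ] H) (hP : IsStarProjection P) (hPi : IsStarProjection Pi)
    (Y₁ Y₂ : Fin n → H →L[ℂ] H) (hY₁ : ∀ i, Pi * Y₁ i = Y₁ i) (hY₂ : ∀ i, Pi * Y₂ i = Y₂ i)
    (hn₁ : ∀ i, ‖Y₁ i‖ ≤ Q) (hn₂ : ∀ i, ‖Y₂ i‖ ≤ Q)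
    (hc₁ : ∀ i, ‖P * Y₁ i - Y₁ i * P‖ ≤ δ) (hc₂ : ∀ i, ‖P * Y₂ i - Y₂ i * P‖ ≤ δ)
    (v : Fin n → H) (hv : ∀ i, ‖v i‖ = 1) (e₁ e₂ : H) (he₁ : ‖e₁‖ ≤ Q ^ 4) (he₂ : ‖e₂‖ ≤ Q ^ 4)
    (hd : ∀ i, ‖(1 - P) (Pi (v i) + Y₁ i e₁ + Y₂ i e₂)‖ ≤ δ)
    (B : StarSubalgebra ℂ (H →L[ℂ] H)) (hB₁ : ∀ i, Y₁ i ∈ B) (hB₂ : ∀ i, Y₂ i ∈ B)
    (hoff : ∀ b ∈ B, ∀ i j, i ≠ j → ⟪v i, b (v j)⟫_ℂ = 0)
    (htr : ∀ b ∈ B, ∀ b' ∈ B, ∀ i j, ⟪v i, (b * b') (v i)⟫_ℂ = ⟪v j, (b' * b) (v j)⟫_ℂ)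
    (hα : ∀ i, ⟪v i, Pi (v i)⟫_ℂ = α) :
    n * α - 9 ≤ ∑ i, ‖P (v i)‖ ^ 2 := by
  obtain ⟨m, rfl⟩ : ∃ m, n = m + 2 := ⟨n - 2, by omega⟩
  have hQ0 : 0 < Q := by linarith
  have hδ0 : 0 ≤ δ := (norm_nonneg _).trans (hc₁ 0)
  -- the matrix with columns `Y₁`, `Y₂`, `0`, ...
  let MY : Matrix (Fin (m + 2)) (Fin (m + 2)) (H →L[ℂ] H) := Matrix.of fun i => col (Y₁ i) (Y₂ i)
  let vv : HH (m + 2) H := WithLp.toLp 2 v
  let ee : HH (m + 2) H := WithLp.toLp 2 (col e₁ e₂)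
  have hMYB : ∀ i j, MY i j ∈ B := by
    intro i j
    refine Fin.cases (hB₁ i) (fun j => Fin.cases (hB₂ i) (fun j => B.zero_mem) j) j
  have hvv : ‖vv‖ ^ 2 = ((m + 2 : ℕ) : ℝ) := by
    rw [PiLp.norm_sq_eq_of_L2]
    simp [vv, hv]
  suffices key : ((m + 2 : ℕ) : ℝ) * α - 9 ≤ ‖op (Matrix.diagonal fun _ => P) vv‖ ^ 2 by
    rw [PiLp.norm_sq_eq_of_L2] at key
    simpa only [op_diag] using key
  refine abstract Q δ (((m + 2 : ℕ) : ℝ) * α) hQ hδ0 hδ (op (Matrix.diagonal fun _ => P))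
    (op (Matrix.diagonal fun _ => Pi)) (op (Matrix.diagonal (col 1 1))) (op MY)
    (op_diag_proj fun _ => hP) (op_diag_proj fun _ => hPi)
    (op_diag_proj fun j => Fin.cases (.one _) (fun j => Fin.cases (.one _) (fun _ => .zero _) j) j)
    ?_ ?_ ?_ ?_ vv ee ?_ ?_ ?_ ?_ ?_ ((B.toSubalgebra.matrix).map op) ⟨MY, hMYB, rfl⟩
    ⟨star MY, fun i j => star_mem (s := B) (hMYB j i), (op_star MY).symm⟩ ?_
  · rw [← map_mul]
    congr 1
    ext1 i j
    rw [Matrix.diagonal_mul]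
    exact Fin.cases (hY₁ i) (fun j => Fin.cases (hY₂ i) (fun j => mul_zero _) j) j
  · rw [← map_mul]
    congr 1
    ext1 i j
    rw [Matrix.mul_diagonal]
    exact Fin.cases (mul_one _) (fun j => Fin.cases (mul_one _) (fun j => mul_zero _) j) j
  · refine (norm_op_le _).trans ?_
    calc ∑ i, ∑ j, ‖MY i j‖ ≤ ∑ _i : Fin (m + 2), 2 * Q := by
          refine Finset.sum_le_sum fun i _ => ?_
          have h1 := hn₁ i
          have h2 := hn₂ i
          simp [MY, col, Fin.sum_univ_succ]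
          linarith
      _ = ((m + 2 : ℕ) : ℝ) * (2 * Q) := by simp
      _ ≤ Q * (2 * Q) := by gcongr
      _ = _ := by ring
  · rw [← map_mul, ← map_mul, ← map_sub]
    refine (norm_op_le _).trans ?_
    calc _ ≤ ∑ _i : Fin (m + 2), 2 * δ := by
          refine Finset.sum_le_sum fun i _ => ?_
          have h1 := hc₁ i
          have h2 := hc₂ i
          simp only [Matrix.sub_apply, Matrix.diagonal_mul, Matrix.mul_diagonal]
          simp [MY, col, Fin.sum_univ_succ]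
          linarith
      _ = ((m + 2 : ℕ) : ℝ) * (2 * δ) := by simp
      _ ≤ Q * (2 * δ) := by gcongr
      _ = _ := by ring
  · refine (abs_le_of_sq_le_sq' ?_ hQ0.le).2
    rw [hvv]
    nlinarith
  · refine (norm_le_sum _).trans ?_
    simp [ee, col, Fin.sum_univ_succ]
    linarith
  · refine (norm_le_sum _).trans ?_
    calc _ ≤ ∑ _i : Fin (m + 2), δ := by
          refine Finset.sum_le_sum fun i _ => ?_
          have h1 := hd i
          have h2 : (op MY ee) i = Y₁ i e₁ + Y₂ i e₂ := by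
            simp [op_apply, MY, ee, col, Fin.sum_univ_succ]
          have h3 : ((1 - op (Matrix.diagonal fun _ => P))
              (op (Matrix.diagonal fun _ => Pi) vv + op MY ee)) i =
              (1 - P) (Pi (v i) + Y₁ i e₁ + Y₂ i e₂) := by
            simp only [sub_apply, one_apply_eq_self, PiLp.sub_apply, PiLp.add_apply, op_diag, h2,
              add_assoc, vv]
          rw [h3]
          exact h1
      _ = ((m + 2 : ℕ) : ℝ) * δ := by simp
      _ ≤ Q * δ := by gcongr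
  · rw [PiLp.norm_sq_eq_of_L2]
    simp only [op_diag]
    simp [col, vv, hv, Fin.sum_univ_succ]
    norm_num
  · rw [PiLp.norm_sq_eq_of_L2]
    have h1 : ∀ i, ‖Pi (v i)‖ ^ 2 = α := by
      intro i
      have h2 := congrArg RCLike.re (hα i)
      rw [← proj_inner hPi, inner_self_eq_norm_sq] at h2
      exact h2
    simp [op_diag, vv, h1]
  · rintro _ ⟨M, hM, rfl⟩ _ ⟨N, hN, rfl⟩
    have h1 : ∀ M : Matrix (Fin (m + 2)) (Fin (m + 2)) (H →L[ℂ] H), (∀ i j, M i j ∈ B) →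
        ⟪vv, op M vv⟫_ℂ = ∑ i, ⟪v i, M i i (v i)⟫_ℂ := by
      intro M hM
      rw [PiLp.inner_apply]
      refine Finset.sum_congr rfl fun i _ => ?_
      rw [op_apply, inner_sum, Finset.sum_eq_single i]
      · intro j _ hj
        exact hoff _ (hM i j) i j (Ne.symm hj)
      · simp
    change ⟪vv, (op M * op N) vv⟫_ℂ = ⟪vv, (op N * op M) vv⟫_ℂ
    rw [← map_mul, ← map_mul, h1 _ (B.toSubalgebra.matrix.mul_mem hM hN),
      h1 _ (B.toSubalgebra.matrix.mul_mem hN hM)]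
    simp only [Matrix.mul_apply, sum_apply, inner_sum]
    rw [Finset.sum_comm]
    refine Finset.sum_congr rfl fun i _ => Finset.sum_congr rfl fun j _ => ?_
    exact htr _ (hM j i) _ (hN i j) j i

end Pool.Agent.MP_ce43bb_an.H25
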